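import Pool.Agent.Helper15.FC.St1

set_option autoImplicit false

/-!
Project FC (MP_16cbc0_nt), module CMH: Hecke characters are completely multiplicative.
-/

namespace Pool.Agent.Helper58.FC

open Pool.Agent.Helper15.FC Polynomial

/-- a multiplicative character of a finite commutative monoid with zero is bounded by `1` -/
theorem norm_mulChar_le_one {R : Type} [CommRing R] [Finite R] (χ : MulChar R ℂ) (x : R) :
    ‖χ x‖ ≤ 1 := by
  by_cases hx : IsUnit x
  · obtain ⟨u, rfl⟩ := hx
    have h1 : (χ (u : R)) ^ (orderOf u) = 1 := by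
      rw [← map_pow, ← Units.val_pow_eq_pow_val, pow_orderOf_eq_one, Units.val_one, map_one]
    have h2 : orderOf u ≠ 0 := (orderOf_pos u).ne'
    exact (Complex.norm_eq_one_of_pow_eq_one h1 h2).le
  · rw [MulChar.map_nonunit χ hx, norm_zero]
    exact zero_le_one

theorem hCMH : StCMH := by
  intro F _ _ r N χ ξ hr
  have : Finite (AdjoinRoot r) := finite_AR hr
  refine ⟨?_, ?_, ?_⟩
  · unfold Hk
    rw [map_one, map_one, one_mul]
    have h : (1 : F[X]).reverse = 1 := by
      rw [← C_1, reverse_C]
    rw [h, map_one, map_one]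
  · intro f g _ _
    unfold Hk
    rw [reverse_mul_of_domain, map_mul, map_mul, map_mul, map_mul]
    ring
  · intro f _
    unfold Hk
    rw [norm_mul]
    exact mul_le_one₀ (norm_mulChar_le_one χ _) (norm_nonneg _) (norm_mulChar_le_one ξ _)

end Pool.Agent.Helper58.FC
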