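import Pool.Agent.Helper15.FC.St3

set_option autoImplicit false

/-!
Project FC (MP_16cbc0_nt), module NTS: a character that is not trivial on `Lw F m` sums to zero.
-/

namespace Pool.Agent.Helper58.FC

open Pool.Agent.Helper15.FC Polynomial

theorem hNTS : StNTS := by
  intro F _ _ ν m h
  obtain ⟨g0, hg0, hne⟩ := h
  have h1 : ∑ g ∈ Lw F m, ν (g + g0) = ∑ g ∈ Lw F m, ν g := by
    refine Finset.sum_bij' (fun g _ => g + g0) (fun g _ => g - g0) ?_ ?_ ?_ ?_ ?_
    · intro g hg
      rw [mem_Lw] at hg hg0 ⊢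
      exact lt_of_le_of_lt (Polynomial.degree_add_le g g0) (max_lt hg hg0)
    · intro g hg
      rw [mem_Lw] at hg hg0 ⊢
      exact lt_of_le_of_lt (Polynomial.degree_sub_le g g0) (max_lt hg hg0)
    · intro g _
      exact add_sub_cancel_right g g0
    · intro g _
      exact sub_add_cancel g g0
    · intro g _
      rfl
  have h2 : (∑ g ∈ Lw F m, ν g) * (ν g0 - 1) = 0 := by
    have h3 : ∑ g ∈ Lw F m, ν (g + g0) = (∑ g ∈ Lw F m, ν g) * ν g0 := by
      rw [Finset.sum_mul]
      exact Finset.sum_congr rfl fun g _ => AddChar.map_add_eq_mul ν g g0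
    rw [mul_sub, mul_one, ← h3, h1, sub_self]
  rcases mul_eq_zero.mp h2 with h3 | h3
  · exact h3
  · exact absurd (sub_eq_zero.mp h3) hne

end Pool.Agent.Helper58.FC
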